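import Pool.Agent.TH549.Crit.Potential

/-!
# The critical exponent is not constant on quasiconformal deformation spaces

There is an infinitely generated Fuchsian group of the first kind with two points of its
quasiconformal deformation space at which the critical exponents are different.

The group is generated by the products of two reflections in a suitable sequence of disjoint half
circles; one of its half circles is tiny and close to the origin. The deformation is the
equivariant extension of an angular stretch of the upper half plane, which fixes the half circles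
on the left and moves the half circles on the right away from the origin.
-/

set_option autoImplicit false

open UpperHalfPlane Topology
open scoped MatrixGroups

namespace Pool.Agent.Results.MP_c5bc55_gt.CriticalExponentVaries

/-- `PSL(2, ℝ)`, realised as the group of all transformations `z ↦ (a z + b) / (c z + d)` of the
upper half plane given by the matrices in `SL(2, ℝ)`. -/
noncomputable def PSL2R : Subgroup (Equiv.Perm ℍ) := (MulAction.toPermHom SL(2, ℝ) ℍ).range

/-- A Fuchsian group: a discrete subgroup of `PSL(2, ℝ)`, that is, a subgroup of `PSL(2, ℝ)` whose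
full preimage in `SL(2, ℝ)` is discrete. -/
def IsFuchsian (G : Subgroup (Equiv.Perm ℍ)) : Prop :=
  G ≤ PSL2R ∧ DiscreteTopology (G.comap (MulAction.toPermHom SL(2, ℝ) ℍ))

/-- The circle at infinity `ℝ ∪ {∞}`, in the Riemann sphere `ℂ ∪ {∞}`. -/
def circleAtInfinity : Set (OnePoint ℂ) :=
  insert OnePoint.infty (Set.range fun x : ℝ => ((x : ℂ) : OnePoint ℂ))

/-- The limit set of a group: the points of the circle at infinity which lie in the closure, in the
Riemann sphere, of the orbit of `i`. -/
def limitSet (G : Subgroup (Equiv.Perm ℍ)) : Set (OnePoint ℂ) :=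
  circleAtInfinity ∩
    closure (Set.range fun g : G => ((((g : Equiv.Perm ℍ) I : ℍ) : ℂ) : OnePoint ℂ))

/-- First kind: the limit set is the whole circle at infinity. -/
def IsFirstKind (G : Subgroup (Equiv.Perm ℍ)) : Prop := limitSet G = circleAtInfinity

/-- The metric definition of quasiconformality, with the hyperbolic metric. There is a constant
`H` such that at every point `z` and for all sufficiently small `r > 0`: if `a` is within distance
`r` of `z` and `b` is at distance at least `r` from `z`, then the distance from `w z` to `w a` is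
at most `H` times the distance from `w z` to `w b`. -/
def HasBoundedDilatation (w : ℍ ≃ₜ ℍ) : Prop :=
  ∃ H : ℝ, ∀ z : ℍ, ∀ᶠ r in 𝓝[>] (0 : ℝ), ∀ a b : ℍ, dist z a ≤ r → r ≤ dist z b →
    dist (w z) (w a) ≤ H * dist (w z) (w b)

/-- The homeomorphism is real differentiable with positive Jacobian at some point. For a
homeomorphism with bounded dilatation this says that it preserves the orientation. -/
def IsPositiveSomewhere (w : ℍ ≃ₜ ℍ) : Prop :=
  ∃ (z : ℍ) (L : ℂ →L[ℝ] ℂ), 0 < L.det ∧
    HasFDerivAt (fun x : ℂ => ((w (ofComplex x) : ℍ) : ℂ)) L (z : ℂ)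

/-- A quasiconformal homeomorphism of the hyperbolic plane. -/
def IsQuasiconformal (w : ℍ ≃ₜ ℍ) : Prop := HasBoundedDilatation w ∧ IsPositiveSomewhere w

/-- The conjugate group `w G w⁻¹`. -/
def conjugate (w : ℍ ≃ₜ ℍ) (G : Subgroup (Equiv.Perm ℍ)) : Subgroup (Equiv.Perm ℍ) :=
  G.map (MulAut.conj (w.toEquiv : Equiv.Perm ℍ)).toMonoidHom

/-- `w` represents a point of the quasiconformal deformation space of `G`: it is a quasiconformal
homeomorphism of the hyperbolic plane and `w G w⁻¹` is contained in `PSL(2, ℝ)`. -/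
def IsDeformation (G : Subgroup (Equiv.Perm ℍ)) (w : ℍ ≃ₜ ℍ) : Prop :=
  IsQuasiconformal w ∧ conjugate w G ≤ PSL2R

/-- The critical exponent: the infimum of the `s > 0` for which the Poincaré series
`∑ exp (-s d(i, g i))` over the group converges. -/
noncomputable def criticalExponent (G : Subgroup (Equiv.Perm ℍ)) : EReal :=
  ⨅ (s : ℝ) (_ : 0 < s ∧ Summable fun g : G => Real.exp (-s * dist I ((g : Equiv.Perm ℍ) I))),
    (s : EReal)

/-- **The critical exponent is not constant on quasiconformal deformation spaces of infinitely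
generated Fuchsian groups of the first kind.** -/
theorem result : ∃ G : Subgroup (Equiv.Perm ℍ), IsFuchsian G ∧ IsFirstKind G ∧ ¬ G.FG ∧
    ∃ w₁ w₂ : ℍ ≃ₜ ℍ, IsDeformation G w₁ ∧ IsDeformation G w₂ ∧
      criticalExponent (conjugate w₁ G) ≠ criticalExponent (conjugate w₂ G) := by
  classical
  -- the fixed half disks
  let D₀ : TH549.Crit.Disk := ⟨-1, 1 / 4, by norm_num⟩
  let D₁ : TH549.Crit.Disk := ⟨-2, 1 / 4, by norm_num⟩
  let D₂ : TH549.Crit.Disk := ⟨1, 1 / 4, by norm_num⟩
  set K : ℝ := max (dist I ((D₀.perm * D₁.perm) I)) (dist I ((D₀.perm * D₂.perm) I)) + 1 with hK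
  have hKpos : 0 < K := by
    have : 0 ≤ max (dist I ((D₀.perm * D₁.perm) I)) (dist I ((D₀.perm * D₂.perm) I)) :=
      le_max_of_le_left dist_nonneg
    linarith
  have hlog : 0 < Real.log 2 := Real.log_pos one_lt_two
  set s : ℝ := Real.log 2 / K / 2 with hs
  have hs0 : 0 < s := by positivity
  have hslt : s < Real.log 2 / K := half_lt_self (by positivity)
  obtain ⟨Z⟩ := TH549.Crit.exists_sizes hs0
  obtain ⟨q, hq⟩ := exists_surjective_nat ℚ
  set B := Z.config q with hB
  have hAway : ∀ n, (B.D n).Away := Z.dsk_away q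
  have hcov : ∀ p : ℚ, p ≠ 0 → ∃ n, |(p : ℝ) - (B.D n).c| ≤ (B.D n).r := by
    intro p hp
    obtain ⟨n, rfl⟩ := hq p
    exact (Z.dsk_spec q n).2.2.2.2 hp
  have hsum := Z.summable hs0 q
  have hIB : ∀ n, ¬ (B.D n).closed I := fun n => TH549.Crit.Sizes.not_closed_I hs0 (hAway n)
  -- the second configuration
  have ht : 0 < Z.t 2 := Z.pos 2
  set κ : ℝ := Real.log (1 / Z.t 2) with hκ
  have hexp : Real.exp κ = 1 / Z.t 2 := Real.exp_log (by positivity)
  set A := B.scale κ hAway with hA
  have hIA : ∀ n, ¬ (A.D n).closed I := fun n =>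
    TH549.Crit.Sizes.not_closed_I hs0 ((hAway n).scale κ)
  have hA0 : A.D 0 = D₀ := by
    have e : B.D 0 = D₀ := Z.dsk_zero q
    rw [hA, B.scale_D, e]
    exact TH549.Crit.scaleDisk_of_neg κ (by norm_num [D₀])
  have hA1 : A.D 1 = D₁ := by
    have e : B.D 1 = D₁ := Z.dsk_one q
    rw [hA, B.scale_D, e]
    exact TH549.Crit.scaleDisk_of_neg κ (by norm_num [D₁])
  have hA2 : A.D 2 = D₂ := by
    have e : B.D 2 = ⟨Z.t 2, Z.t 2 / 4, by positivity⟩ := Z.dsk_two q
    rw [hA, B.scale_D, e]
    unfold TH549.Crit.scaleDisk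
    have e1 : Real.exp κ * Z.t 2 = 1 := by rw [hexp]; field_simp
    have e2 : Real.exp κ * (Z.t 2 / 4) = 1 / 4 := by rw [hexp]; field_simp
    simp only [D₂, if_pos ht, e1, e2]
  let P := B.compat κ hAway
  have hL := TH549.Crit.one_le_lip κ
  have hΛ := B.compat_sh κ hAway
  have hΛ' := B.compat_symm_sh κ hAway
  let w : ℍ ≃ₜ ℍ := P.homeo (TH549.Crit.Config.lip κ) hΛ hΛ'
  have hw : conjugate w B.grp = A.grp := P.map_grp
  have hid : conjugate (Homeomorph.refl ℍ) B.grp = B.grp := by
    unfold conjugate
    have e : (MulAut.conj ((Homeomorph.refl ℍ).toEquiv : Equiv.Perm ℍ)).toMonoidHom =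
        MonoidHom.id (Equiv.Perm ℍ) := by
      ext g z
      rfl
    rw [e, Subgroup.map_id]
  have hupper : criticalExponent B.grp ≤ (s : EReal) := TH549.Crit.Config.critExp_le hs0 hsum
  have hlower : ((Real.log 2 / K : ℝ) : EReal) ≤ criticalExponent A.grp := by
    refine A.le_critExp hIA hKpos ?_ ?_
    · change dist I (((A.D 0).perm * (A.D 1).perm) I) ≤ K
      rw [hA0, hA1, hK]
      have := le_max_left (dist I ((D₀.perm * D₁.perm) I)) (dist I ((D₀.perm * D₂.perm) I))
      linarith
    · change dist I (((A.D 0).perm * (A.D 2).perm) I) ≤ K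
      rw [hA0, hA2, hK]
      have := le_max_right (dist I ((D₀.perm * D₁.perm) I)) (dist I ((D₀.perm * D₂.perm) I))
      linarith
  refine ⟨B.grp, ⟨B.grp_le_PSL, TH549.Crit.discrete_of_summable hs0 hsum⟩, B.isFirstKind hcov,
    B.not_fg hIB, Homeomorph.refl ℍ, w, ⟨⟨TH549.Crit.metricQC_refl, ?_⟩, ?_⟩,
    ⟨⟨?_, ?_⟩, ?_⟩, ?_⟩
  · exact TH549.Crit.positive_of_eventually I (Filter.Eventually.of_forall fun _ => rfl)
  · rw [hid]; exact B.grp_le_PSL
  · exact P.metricQC _ hL hΛ hΛ'
  · -- near `-1 + i` the deformation is the identity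
    let z₀ : ℍ := ⟨⟨-1, 1⟩, one_pos⟩
    apply TH549.Crit.positive_of_eventually z₀
    have hz₀ : ∀ n, ¬ (B.D n).closed z₀ := by
      intro n hn
      have h1 := (B.D n).im_le_of_closed hn
      have h2 : z₀.im = 1 := rfl
      rw [h2] at h1
      have h3 : (B.D n).r < 1 := by
        rcases Nat.lt_or_ge n 2 with h | h
        · interval_cases n
          · have e : B.D 0 = D₀ := Z.dsk_zero q
            rw [e]; norm_num [D₀]
          · have e : B.D 1 = D₁ := Z.dsk_one q
            rw [e]; norm_num [D₁]
        · exact lt_of_le_of_lt (Z.dsk_r_le q h) (Z.lt n)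
      linarith
    have h1 := B.local_finite z₀
    have h2 : ∀ᶠ a in 𝓝 z₀, TH549.Crit.cosarg a < -(1 / 2) := by
      have hc : ContinuousAt TH549.Crit.cosarg z₀ := by
        unfold TH549.Crit.cosarg
        refine ContinuousAt.div UpperHalfPlane.continuous_re.continuousAt ?_ ?_
        · exact (continuous_norm.comp UpperHalfPlane.continuous_coe).continuousAt
        · exact (TH549.Crit.norm_pos' z₀).ne'
      refine hc.eventually (gt_mem_nhds ?_)
      change z₀.re / ‖(z₀ : ℂ)‖ < -(1 / 2)
      rw [div_lt_iff₀ (TH549.Crit.norm_pos' z₀)]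
      have h3 : ‖(z₀ : ℂ)‖ ^ 2 = 2 := by
        rw [← Complex.normSq_eq_norm_sq, Complex.normSq_apply]
        change (-1 : ℝ) * -1 + 1 * 1 = 2
        norm_num
      have h4 : z₀.re = -1 := rfl
      rw [h4]
      nlinarith [norm_nonneg (z₀ : ℂ)]
    filter_upwards [h1, h2] with a ha1 ha2
    have haF : a ∈ B.F := fun n hn => hz₀ n (ha1 n hn.closed)
    change P.val a = a
    rw [P.val_of_mem haF]
    exact TH549.Crit.tw_eq_self ha2.le
  · rw [hw]; exact A.grp_le_PSL
  · rw [hid, hw]
    apply ne_of_lt
    refine lt_of_le_of_lt hupper (lt_of_lt_of_le ?_ hlower)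
    exact EReal.coe_lt_coe_iff.mpr hslt

end Pool.Agent.Results.MP_c5bc55_gt.CriticalExponentVaries
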